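import Mathlib
import Pool.Agent.Lib.MP_7682a8_an.OM.Base
import Pool.Agent.Lib.MP_7682a8_an.H10.MainLemma

/-!
Module MIX: mixing the kernel estimate with the Herglotz measure of `q` (Paper, section 4).
-/

set_option autoImplicit false

open Metric MeasureTheory Set

namespace Pool.Agent.Lib.MP_7682a8_an.OM.H10

open Pool.Agent.Lib.MP_7682a8_an.H10

noncomputable section

theorem mix : MIXStatement := by
  intro R F q hR hF hq hqpos hq0 B hB
  have hpi := Real.pi_pos
  have h2pi : (0:ℝ) ≤ 2 * Real.pi := by positivity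
  obtain ⟨W, hWdef⟩ : ∃ W : ℝ → ℂ, ∀ s : ℝ, W s = deriv F s := ⟨_, fun _ => rfl⟩
  obtain ⟨ρ, hρdef⟩ : ∃ ρ : ℝ → ℝ, ∀ σ : ℝ, ρ σ = (q (Complex.exp (σ * Complex.I))).re :=
    ⟨_, fun _ => rfl⟩
  have hball : ∀ s ∈ Icc (0:ℝ) 1, (s:ℂ) ∈ ball (0:ℂ) R := by
    intro s hs
    rw [mem_ball_zero_iff, Complex.norm_real, Real.norm_of_nonneg hs.1]
    linarith [hs.2]
  have hmem : ∀ θ : ℝ, Complex.exp (θ * Complex.I) ∈ sphere (0:ℂ) 1 := by
    intro θ; simp [Complex.norm_exp_ofReal_mul_I]
  have hd1 := hF.deriv isOpen_ball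
  have hcs : ContinuousOn (fun s : ℝ => (s:ℂ)) (Icc 0 1) := by fun_prop
  have hW : ContinuousOn W (Icc 0 1) := by
    refine (hd1.continuousOn.comp hcs hball).congr ?_
    intro s _
    rw [hWdef]; rfl
  have hcq : ContinuousOn (fun s : ℝ => q s) (Icc 0 1) := hq.continuousOn.comp hcs hball
  have hρ : Continuous ρ := by
    have h1 : Continuous (fun σ : ℝ => q (Complex.exp (σ * Complex.I))) := by
      rw [← continuousOn_univ]
      have h2 : ContinuousOn (fun θ : ℝ => Complex.exp (θ * Complex.I)) univ := by fun_prop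
      exact hq.continuousOn.comp h2 (fun θ _ => sphere_subset_ball hR (hmem θ))
    have h2 := Complex.continuous_re.comp h1
    refine h2.congr ?_
    intro σ; rw [hρdef]; rfl
  have hρ0 : ∀ σ, 0 ≤ ρ σ := fun σ => by rw [hρdef]; exact hqpos _ (hmem σ)
  have hIK := integrableOn_K hρ hW
  obtain ⟨K, hK⟩ : ∃ K : ℝ → ℝ → ℂ, ∀ s σ : ℝ, K s σ = (Complex.exp (σ * Complex.I) + s) /
      (Complex.exp (σ * Complex.I) - s) * (ρ σ : ℂ) * W s := ⟨_, fun _ _ => rfl⟩
  have hIK' : IntegrableOn K.uncurry (uIoc 0 1 ×ˢ uIoc 0 (2 * Real.pi)) := by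
    refine hIK.congr_fun ?_ (measurableSet_uIoc.prod measurableSet_uIoc)
    rintro ⟨s, σ⟩ _
    simp only [Function.uncurry, hK]
  have hswap := intervalIntegral_intervalIntegral_swap (F := K) hIK'
  -- Herglotz formula
  have hherg : ∀ s ∈ Ico (0:ℝ) 1, ∫ σ in (0:ℝ)..(2 * Real.pi), K s σ =
      2 * Real.pi * (q s * W s) := by
    intro s hs
    have hsb : (s:ℂ) ∈ ball (0:ℂ) 1 := by
      rw [mem_ball_zero_iff, Complex.norm_real, Real.norm_of_nonneg hs.1]; exact hs.2
    have h1 := herglotz hR hq hsb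
    rw [Real.circleAverage_def, hq0] at h1
    have h2 : q s = (2 * Real.pi)⁻¹ • ∫ θ in (0:ℝ)..2 * Real.pi,
        (circleMap 0 1 θ + s) / (circleMap 0 1 θ - s) * ((q (circleMap 0 1 θ)).re : ℂ) := by
      rw [h1]; simp
    rw [h2]
    have h3 : ∫ σ in (0:ℝ)..(2 * Real.pi), K s σ = (∫ θ in (0:ℝ)..2 * Real.pi,
        (circleMap 0 1 θ + s) / (circleMap 0 1 θ - s) * ((q (circleMap 0 1 θ)).re : ℂ)) * W s := by
      rw [← intervalIntegral.integral_mul_const]
      apply intervalIntegral.integral_congr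
      intro θ _
      simp only [hK, hρdef, circleMap, Complex.ofReal_one, one_mul, zero_add]
    rw [h3]
    simp only [Complex.real_smul]
    have : (2 * (Real.pi:ℂ)) ≠ 0 := by
      have : (Real.pi:ℂ) ≠ 0 := by exact_mod_cast Real.pi_ne_zero
      simp [this]
    push_cast
    field_simp
  have hL : ∫ s in (0:ℝ)..1, ∫ σ in (0:ℝ)..(2 * Real.pi), K s σ =
      ∫ s in (0:ℝ)..1, 2 * Real.pi * (q s * W s) := by
    apply intervalIntegral.integral_congr_ae
    have h1 : ∀ᵐ s : ℝ, s ≠ 1 := by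
      rw [ae_iff]; simp
    filter_upwards [h1] with s hs1 hs
    rw [uIoc_of_le zero_le_one] at hs
    exact hherg s ⟨hs.1.le, lt_of_le_of_ne hs.2 hs1⟩
  -- inner integrals in the other order
  have hJ : ∀ σ ∈ Ioo (0:ℝ) (2 * Real.pi), (∫ s in (0:ℝ)..1, K s σ).re ≤ ρ σ * B := by
    intro σ hσ
    have h1 : ∫ s in (0:ℝ)..1, K s σ = (ρ σ : ℂ) * ∫ s in (0:ℝ)..1,
        (Complex.exp (σ * Complex.I) + s) / (Complex.exp (σ * Complex.I) - s) * deriv F s := by
      rw [← intervalIntegral.integral_const_mul]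
      apply intervalIntegral.integral_congr
      intro s _
      simp only [hK, hWdef]
      ring
    rw [h1, Complex.re_ofReal_mul]
    exact mul_le_mul_of_nonneg_left (hB σ hσ) (hρ0 σ)
  have hint2 : IntervalIntegrable (fun σ => ∫ s in (0:ℝ)..1, K s σ) volume 0 (2 * Real.pi) := by
    rw [intervalIntegrable_iff_integrableOn_Ioc_of_le h2pi]
    have h1 : Integrable K.uncurry ((volume.restrict (Ioc (0:ℝ) 1)).prod
        (volume.restrict (Ioc 0 (2 * Real.pi)))) := by
      rw [Measure.prod_restrict, ← Measure.volume_eq_prod]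
      rw [uIoc_of_le zero_le_one, uIoc_of_le h2pi] at hIK'
      exact hIK'
    have h2 := h1.integral_prod_right
    refine h2.congr ?_
    filter_upwards with σ
    rw [intervalIntegral.integral_of_le zero_le_one]
    rfl
  have hR1 : (∫ σ in (0:ℝ)..(2 * Real.pi), ∫ s in (0:ℝ)..1, K s σ).re ≤
      ∫ σ in (0:ℝ)..(2 * Real.pi), ρ σ * B := by
    have hre := Complex.reCLM.intervalIntegral_comp_comm hint2
    rw [← Complex.reCLM_apply, ← hre]
    apply intervalIntegral.integral_mono_on_of_le_Ioo h2pi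
    · exact ⟨Complex.reCLM.integrable_comp hint2.1, Complex.reCLM.integrable_comp hint2.2⟩
    · exact (hρ.mul continuous_const).intervalIntegrable _ _
    · intro σ hσ
      exact hJ σ hσ
  -- mean of rho
  have hmean : ∫ σ in (0:ℝ)..(2 * Real.pi), ρ σ = 2 * Real.pi * (q 0).re := by
    have h0 : (q 0).re = Real.circleAverage (fun ζ => (q ζ).re) 0 1 := by
      rw [← re_poisson hR hq (mem_ball_self one_pos)]
      apply Real.circleAverage_congr_sphere
      intro ζ hζ
      have hne : ζ ≠ 0 := by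
        rintro rfl; simp at hζ
      simp [div_self hne]
    rw [h0, Real.circleAverage_def, smul_eq_mul, ← mul_assoc, mul_inv_cancel₀ (by positivity),
      one_mul]
    apply intervalIntegral.integral_congr
    intro θ _
    simp only [hρdef, circleMap, Complex.ofReal_one, one_mul, zero_add]
  have hfin : ∫ s in (0:ℝ)..1, q s * deriv F s = ∫ s in (0:ℝ)..1, q s * W s := by
    apply intervalIntegral.integral_congr
    intro s _
    simp only [hWdef]
  rw [hfin]
  rw [← hswap, hL, intervalIntegral.integral_const_mul, intervalIntegral.integral_mul_const,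
    hmean] at hR1
  have h5 : ((2 * Real.pi * (∫ s in (0:ℝ)..1, q s * W s) : ℂ)).re
      = 2 * Real.pi * (∫ s in (0:ℝ)..1, q s * W s).re := by
    have : (2 * (Real.pi : ℂ)) = ((2 * Real.pi : ℝ) : ℂ) := by push_cast; ring
    rw [this, Complex.re_ofReal_mul]
  rw [h5] at hR1
  have h6 : 2 * Real.pi * (∫ s in (0:ℝ)..1, q s * W s).re ≤
      2 * Real.pi * (B * (q 0).re) := by
    calc _ ≤ _ := hR1
      _ = _ := by ring
  exact le_of_mul_le_mul_left h6 (by positivity)

end

end Pool.Agent.Lib.MP_7682a8_an.OM.H10
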