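import Mathlib
import Pool.Agent.Lib.MP_7682a8_an.OM.Base
import Pool.Agent.Lib.MP_7682a8_an.H10.MainLemma

/-!
Module REP: the representation of the kernel integral (Paper, section 3).
-/

set_option autoImplicit false

open Metric MeasureTheory Set Filter Topology

namespace Pool.Agent.Lib.MP_7682a8_an.OM.H10

open Pool.Agent.Lib.MP_7682a8_an.H10

noncomputable section

/-- The trick: for `g` holomorphic on the unit disc and `s < 1`. -/
lemma rep_radius {g : ℂ → ℂ} (hg : DifferentiableOn ℂ g (ball 0 1)) {s : ℝ} (hs0 : 0 < s)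
    (hs1 : s < 1) (σ : ℝ) :
    ∫ t in (0:ℝ)..(2 * Real.pi), ((t:ℂ) - σ) *
      (g ((s:ℂ) * Complex.exp (t * Complex.I)) * ((s:ℂ) * (Complex.I * Complex.exp (t * Complex.I)))) =
    2 * Real.pi * ∫ u in (0:ℝ)..s, g u := by
  obtain ⟨B, hB⟩ := hg.isExactOn_ball
  have hpi := Real.pi_pos
  have hnorm : ∀ t : ℝ, ‖(s:ℂ) * Complex.exp (t * Complex.I)‖ = s := by
    intro t
    rw [norm_mul, Complex.norm_exp_ofReal_mul_I, mul_one, Complex.norm_real,
      Real.norm_of_nonneg hs0.le]
  have hmem : ∀ t : ℝ, (s:ℂ) * Complex.exp (t * Complex.I) ∈ ball (0:ℂ) 1 := by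
    intro t
    rw [mem_ball_zero_iff, hnorm]; exact hs1
  have hBd : DifferentiableOn ℂ B (ball 0 1) := fun z hz => (hB z hz).differentiableAt.differentiableWithinAt
  -- (a) fundamental theorem on the segment
  have ha : ∫ u in (0:ℝ)..s, g u = B s - B 0 := by
    have hsub : ∀ u ∈ uIcc (0:ℝ) s, (u:ℂ) ∈ ball (0:ℂ) 1 := by
      intro u hu
      rw [uIcc_of_le hs0.le] at hu
      rw [mem_ball_zero_iff, Complex.norm_real, Real.norm_of_nonneg hu.1]
      linarith [hu.2]
    have key := intervalIntegral.integral_eq_sub_of_hasDerivAt (a := 0) (b := s)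
      (f := fun t : ℝ => B (t:ℂ)) (f' := fun t : ℝ => g (t:ℂ))
      (fun u hu => (hB _ (hsub u hu)).comp_ofReal) (by
        apply ContinuousOn.intervalIntegrable
        have : ContinuousOn (fun t : ℝ => (t:ℂ)) (uIcc 0 s) := by fun_prop
        exact hg.continuousOn.comp this hsub)
    rw [key]; simp
  -- (b) mean value
  have hb : ∫ t in (0:ℝ)..(2 * Real.pi), B ((s:ℂ) * Complex.exp (t * Complex.I)) =
      2 * Real.pi * B 0 := by
    have h1 : DiffContOnCl ℂ B (ball 0 |s|) := by
      refine DifferentiableOn.diffContOnCl ?_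
      rw [abs_of_pos hs0, closure_ball (0:ℂ) hs0.ne']
      exact hBd.mono (closedBall_subset_ball hs1)
    have h2 := h1.circleAverage
    rw [Real.circleAverage_def] at h2
    have h3 : ∫ t in (0:ℝ)..(2 * Real.pi), B ((s:ℂ) * Complex.exp (t * Complex.I)) =
        ∫ t in (0:ℝ)..(2 * Real.pi), B (circleMap 0 s t) := by
      apply intervalIntegral.integral_congr
      intro t _
      simp only [circleMap, zero_add]
    rw [h3, ← h2, Complex.real_smul]
    have : (Real.pi:ℂ) ≠ 0 := by exact_mod_cast Real.pi_ne_zero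
    push_cast
    field_simp
  -- (c) integration by parts
  have hcontc : Continuous (fun t : ℝ => (s:ℂ) * Complex.exp (t * Complex.I)) := by fun_prop
  have hcB : Continuous (fun t : ℝ => B ((s:ℂ) * Complex.exp (t * Complex.I))) := by
    rw [← continuousOn_univ]
    exact hBd.continuousOn.comp hcontc.continuousOn (fun t _ => hmem t)
  have hcg : Continuous (fun t : ℝ => g ((s:ℂ) * Complex.exp (t * Complex.I))) := by
    rw [← continuousOn_univ]
    exact hg.continuousOn.comp hcontc.continuousOn (fun t _ => hmem t)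
  have hc2 : Continuous (fun t : ℝ => ((t:ℂ) - σ) *
      (g ((s:ℂ) * Complex.exp (t * Complex.I)) *
        ((s:ℂ) * (Complex.I * Complex.exp (t * Complex.I))))) := by
    have : Continuous (fun t : ℝ => (s:ℂ) * (Complex.I * Complex.exp (t * Complex.I))) := by fun_prop
    have h4 : Continuous (fun t : ℝ => (t:ℂ) - σ) := by fun_prop
    exact h4.mul (hcg.mul this)
  have key := intervalIntegral.integral_eq_sub_of_hasDerivAt (a := 0) (b := 2 * Real.pi)
      (f := fun t : ℝ => ((t:ℂ) - σ) * B ((s:ℂ) * Complex.exp (t * Complex.I)))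
      (f' := fun t : ℝ => B ((s:ℂ) * Complex.exp (t * Complex.I)) + ((t:ℂ) - σ) *
        (g ((s:ℂ) * Complex.exp (t * Complex.I)) *
          ((s:ℂ) * (Complex.I * Complex.exp (t * Complex.I))))) (by
        intro t _
        have h1 : HasDerivAt (fun t : ℝ => (s:ℂ) * Complex.exp (t * Complex.I))
          ((s:ℂ) * (Complex.I * Complex.exp (t * Complex.I))) t :=
          (hasDerivAt_cexp_mul_I t).const_mul _
        have h2 := hasDerivAt_comp_real (c := fun t : ℝ => (s:ℂ) * Complex.exp (t * Complex.I))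
          (hB _ (hmem t)) h1
        have h3 : HasDerivAt (fun t : ℝ => (t:ℂ) - σ) 1 t := by
          simpa using (Complex.ofRealCLM.hasDerivAt (x := t)).sub_const (σ:ℂ)
        have h4 := h3.mul h2
        refine h4.congr_deriv ?_
        ring) ((hcB.add hc2).intervalIntegrable _ _)
  rw [intervalIntegral.integral_add (hcB.intervalIntegrable _ _) (hc2.intervalIntegrable _ _), hb]
    at key
  have e0 : Complex.exp (((2 * Real.pi : ℝ):ℂ) * Complex.I) = 1 := by
    push_cast; exact Complex.exp_two_pi_mul_I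
  simp only [e0, Complex.ofReal_zero, zero_mul, Complex.exp_zero, mul_one, zero_sub] at key
  rw [ha]
  have h5 : ∫ t in (0:ℝ)..(2 * Real.pi), ((t:ℂ) - σ) *
      (g ((s:ℂ) * Complex.exp (t * Complex.I)) *
        ((s:ℂ) * (Complex.I * Complex.exp (t * Complex.I)))) =
      (((2 * Real.pi : ℝ):ℂ) - σ) * B s - -(σ:ℂ) * B s - 2 * Real.pi * B 0 := by
    rw [← key]; ring
  rw [h5]
  push_cast
  ring

/-- `x / sin x` is bounded on compact subintervals of `(-pi, pi)`. -/
lemma bound_sin {σ : ℝ} (hσ : σ ∈ Ioo (0:ℝ) (2 * Real.pi)) :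
    ∃ M : ℝ, 0 ≤ M ∧ ∀ t ∈ Icc (0:ℝ) (2 * Real.pi), |t - σ| ≤ M * |Real.sin ((t - σ) / 2)| := by
  have hpi := Real.pi_pos
  have hcont : ContinuousOn (fun t : ℝ => (Real.sinc ((t - σ) / 2))⁻¹) (Icc 0 (2 * Real.pi)) := by
    apply ContinuousOn.inv₀
    · exact (Real.continuous_sinc.comp (by fun_prop)).continuousOn
    · intro t ht
      rcases eq_or_ne ((t - σ) / 2) 0 with h | h
      · rw [h]; simp
      · rw [Real.sinc_of_ne_zero h]
        apply div_ne_zero _ h
        intro h0
        rw [Real.sin_eq_zero_iff_of_lt_of_lt (by linarith [ht.1, hσ.2]) (by linarith [ht.2, hσ.1])] at h0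
        exact h h0
  obtain ⟨M, hM⟩ := isCompact_Icc.exists_bound_of_continuousOn hcont
  refine ⟨2 * M, ?_, ?_⟩
  · have := hM 0 ⟨le_rfl, by positivity⟩
    linarith [norm_nonneg ((Real.sinc ((0 - σ) / 2))⁻¹)]
  · intro t ht
    rcases eq_or_ne ((t - σ) / 2) 0 with h | h
    · have : t - σ = 0 := by linarith
      rw [this]; simp
    · have h1 := hM t ht
      rw [Real.sinc_of_ne_zero h, inv_div, Real.norm_eq_abs, abs_div] at h1
      have hs : 0 < |Real.sin ((t - σ) / 2)| := by
        rw [abs_pos]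
        intro h0
        rw [Real.sin_eq_zero_iff_of_lt_of_lt (by linarith [ht.1, hσ.2]) (by linarith [ht.2, hσ.1])] at h0
        exact h h0
      rw [div_le_iff₀ hs] at h1
      have h2 : |t - σ| = 2 * |(t - σ) / 2| := by
        rw [abs_div, abs_of_pos (two_pos : (0:ℝ) < 2)]; ring
      rw [h2]; linarith

lemma norm_exp_sub_exp (σ t : ℝ) :
    ‖Complex.exp (σ * Complex.I) - Complex.exp (t * Complex.I)‖ = 2 * |Real.sin ((t - σ) / 2)| := by
  rw [exp_sub_exp, norm_mul, Complex.norm_exp_ofReal_mul_I, one_mul, norm_mul, norm_mul,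
    Complex.norm_I, Complex.norm_real]
  have : (σ - t) / 2 = -((t - σ) / 2) := by ring
  rw [this, Real.sin_neg, norm_neg, Real.norm_eq_abs]
  norm_num

lemma norm_exp_sub_ge (σ t : ℝ) {s : ℝ} (hs0 : 0 ≤ s) (hs1 : s ≤ 1) :
    |Real.sin ((t - σ) / 2)| ≤ ‖Complex.exp (σ * Complex.I) - (s:ℂ) * Complex.exp (t * Complex.I)‖ := by
  have h1 := norm_sub_norm_le (Complex.exp (σ * Complex.I)) ((s:ℂ) * Complex.exp (t * Complex.I))
  rw [norm_mul, Complex.norm_exp_ofReal_mul_I, Complex.norm_exp_ofReal_mul_I, Complex.norm_real,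
    Real.norm_of_nonneg hs0, mul_one] at h1
  have h2 := norm_exp_sub_exp σ t
  have h3 : ‖Complex.exp (σ * Complex.I) - Complex.exp (t * Complex.I)‖ ≤
      ‖Complex.exp (σ * Complex.I) - (s:ℂ) * Complex.exp (t * Complex.I)‖ + (1 - s) := by
    have h4 : Complex.exp (σ * Complex.I) - Complex.exp (t * Complex.I) =
        (Complex.exp (σ * Complex.I) - (s:ℂ) * Complex.exp (t * Complex.I)) +
          (((s - 1 : ℝ):ℂ)) * Complex.exp (t * Complex.I) := by push_cast; ring
    rw [h4]
    refine (norm_add_le _ _).trans ?_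
    rw [norm_mul, Complex.norm_exp_ofReal_mul_I, Complex.norm_real, mul_one, Real.norm_eq_abs,
      abs_of_nonpos (by linarith)]
    linarith
  linarith

/-- The value of the kernel on the circle. -/
lemma kernel_circle {σ t : ℝ} (h : (t - σ) / 2 ≠ 0) (hs : Real.sin ((t - σ) / 2) ≠ 0) :
    ((t:ℂ) - σ) * ((Complex.exp (σ * Complex.I) + Complex.exp (t * Complex.I)) /
      (Complex.exp (σ * Complex.I) - Complex.exp (t * Complex.I))) =
      2 * Complex.I * ((Jf ((t - σ) / 2) : ℝ) : ℂ) := by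
  unfold Jf
  rw [Real.sinc_of_ne_zero h, exp_add_exp, exp_sub_exp]
  have h1 : (σ - t) / 2 = -((t - σ) / 2) := by ring
  rw [h1, Real.sin_neg, Real.cos_neg]
  have h2 : ((t:ℂ) - σ) = 2 * (((t - σ) / 2 : ℝ) : ℂ) := by push_cast; ring
  rw [h2]
  have hE := Complex.exp_ne_zero (((σ + t) / 2 : ℝ) * Complex.I)
  generalize Complex.exp (((σ + t) / 2 : ℝ) * Complex.I) = E at *
  clear h1 h2
  revert h hs
  generalize Real.sin ((t - σ) / 2) = S
  generalize Real.cos ((t - σ) / 2) = C
  generalize (t - σ) / 2 = x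
  intro h hs
  have hI : Complex.I ≠ 0 := Complex.I_ne_zero
  have hs' : (S : ℂ) ≠ 0 := by exact_mod_cast hs
  have h' : (x : ℂ) ≠ 0 := by exact_mod_cast h
  have hI2 : Complex.I ^ 2 = -1 := Complex.I_sq
  push_cast
  field_simp
  rw [hI2]
  ring

theorem rep (hK : KERNStatement) : REPStatement := by
  intro R F hR hF κ hκ σ hσ
  obtain ⟨hN, hJ, hder, -, -⟩ := hK
  have hpi := Real.pi_pos
  have h2pi : (0:ℝ) ≤ 2 * Real.pi := by positivity
  obtain ⟨ζ, hζ⟩ : ∃ ζ : ℂ, ζ = Complex.exp (σ * Complex.I) := ⟨_, rfl⟩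
  have hζn : ‖ζ‖ = 1 := by rw [hζ]; exact Complex.norm_exp_ofReal_mul_I σ
  obtain ⟨g, hg⟩ : ∃ g : ℂ → ℂ, ∀ z, g z = (ζ + z) / (ζ - z) * deriv F z := ⟨_, fun _ => rfl⟩
  have hd1 := hF.deriv isOpen_ball
  have hgd : DifferentiableOn ℂ g (ball 0 R ∩ {ζ}ᶜ) := by
    have h1 : DifferentiableOn ℂ (fun z => (ζ + z) / (ζ - z) * deriv F z) (ball 0 R ∩ {ζ}ᶜ) := by
      apply DifferentiableOn.mul
      · apply DifferentiableOn.div (by fun_prop) (by fun_prop)
        rintro z ⟨_, hz⟩
        rw [sub_ne_zero]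
        exact fun h => hz h.symm
      · exact hd1.mono inter_subset_left
    exact h1.congr (fun z _ => hg z)
  have hopen : IsOpen (ball (0:ℂ) R ∩ {ζ}ᶜ) := isOpen_ball.inter isOpen_compl_singleton
  have hg1 : DifferentiableOn ℂ g (ball 0 1) := by
    apply hgd.mono
    intro z hz
    refine ⟨ball_subset_ball hR.le hz, ?_⟩
    rintro (rfl : z = ζ)
    rw [mem_ball_zero_iff, hζn] at hz
    exact lt_irrefl _ hz
  -- bound on the derivative
  obtain ⟨C, hC⟩ := (isCompact_closedBall (0:ℂ) 1).exists_bound_of_continuousOn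
    (hd1.continuousOn.mono (closedBall_subset_ball hR))
  obtain ⟨M, hM0, hM⟩ := bound_sin hσ
  have hC0 : 0 ≤ C := (norm_nonneg _).trans (hC 0 (mem_closedBall_self zero_le_one))
  have hsin : ∀ t ∈ Icc (0:ℝ) (2 * Real.pi), (t - σ) / 2 ≠ 0 → Real.sin ((t - σ) / 2) ≠ 0 := by
    intro t ht h h0
    rw [Real.sin_eq_zero_iff_of_lt_of_lt (by linarith [ht.1, hσ.2]) (by linarith [ht.2, hσ.1])] at h0
    exact h h0
  -- the limit of the left side
  have hlim1 : Tendsto (fun s : ℝ => (2 * Real.pi * ∫ u in (0:ℝ)..s, g u : ℂ)) (𝓝[<] 1)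
      (𝓝 (2 * Real.pi * ∫ u in (0:ℝ)..1, g u)) := by
    have hsegs : ∀ u ∈ Icc (0:ℝ) 1, (u:ℂ) ∈ ball (0:ℂ) R ∩ {ζ}ᶜ := by
      intro u hu
      refine ⟨?_, ?_⟩
      · rw [mem_ball_zero_iff, Complex.norm_real, Real.norm_of_nonneg hu.1]; linarith [hu.2]
      · intro h
        rw [mem_singleton_iff] at h
        have hu1 : u = 1 := by
          have := hζn
          rw [← h, Complex.norm_real, Real.norm_of_nonneg hu.1] at this
          exact this
        have h2 := norm_exp_sub_exp σ 0
        rw [← hζ, ← h, hu1] at h2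
        simp only [Complex.ofReal_one, Complex.ofReal_zero, zero_mul, Complex.exp_zero, sub_self,
          norm_zero] at h2
        have h3 := hsin 0 ⟨le_rfl, h2pi⟩ (by linarith [hσ.1])
        have h4 : |Real.sin ((0 - σ) / 2)| = 0 := by linarith
        exact h3 (abs_eq_zero.mp h4)
    have hcg : ContinuousOn (fun u : ℝ => g u) (Icc 0 1) := by
      have : ContinuousOn (fun u : ℝ => (u:ℂ)) (Icc 0 1) := by fun_prop
      exact hgd.continuousOn.comp this hsegs
    have h1 : ContinuousOn (fun s : ℝ => ∫ u in (0:ℝ)..s, g u) (Icc 0 1) := by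
      have h0 := intervalIntegral.continuousOn_primitive_interval (a := 0) (b := 1)
        (f := fun u : ℝ => g u) (μ := volume) (by
          rw [uIcc_of_le zero_le_one]
          exact hcg.integrableOn_Icc)
      rwa [uIcc_of_le zero_le_one] at h0
    have h2 : Tendsto (fun s : ℝ => ∫ u in (0:ℝ)..s, g u) (𝓝[Icc 0 1] 1)
      (𝓝 (∫ u in (0:ℝ)..1, g u)) := h1 1 ⟨zero_le_one, le_rfl⟩
    have h3 : 𝓝[<] (1:ℝ) ≤ 𝓝[Icc 0 1] 1 := by
      have : Ioo (0:ℝ) 1 ∈ 𝓝[<] (1:ℝ) := Ioo_mem_nhdsLT zero_lt_one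
      rw [nhdsWithin, nhdsWithin]
      refine le_inf inf_le_left ?_
      rw [le_principal_iff]
      exact mem_of_superset this Ioo_subset_Icc_self
    exact (h2.mono_left h3).const_mul _
  -- the limit of the right side
  have hlim2 : Tendsto (fun s : ℝ => ∫ t in (0:ℝ)..(2 * Real.pi), ((t:ℂ) - σ) *
      (g ((s:ℂ) * Complex.exp (t * Complex.I)) *
        ((s:ℂ) * (Complex.I * Complex.exp (t * Complex.I))))) (𝓝[<] 1)
      (𝓝 (∫ t in (0:ℝ)..(2 * Real.pi), 2 * Complex.I * ((Jf ((t - σ) / 2) : ℝ) : ℂ) *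
        (deriv F (Complex.exp (t * Complex.I)) * (Complex.I * Complex.exp (t * Complex.I))))) := by
    have hIoo : Ioo (0:ℝ) 1 ∈ 𝓝[<] (1:ℝ) := Ioo_mem_nhdsLT zero_lt_one
    apply intervalIntegral.tendsto_integral_filter_of_dominated_convergence (fun _ => 2 * M * C)
    · filter_upwards [hIoo] with s hs
      have hcontc : Continuous (fun t : ℝ => (s:ℂ) * Complex.exp (t * Complex.I)) := by fun_prop
      have hmem : ∀ t : ℝ, (s:ℂ) * Complex.exp (t * Complex.I) ∈ ball (0:ℂ) 1 := by
        intro t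
        rw [mem_ball_zero_iff, norm_mul, Complex.norm_exp_ofReal_mul_I, mul_one, Complex.norm_real,
          Real.norm_of_nonneg hs.1.le]
        exact hs.2
      have hcg : Continuous (fun t : ℝ => g ((s:ℂ) * Complex.exp (t * Complex.I))) := by
        rw [← continuousOn_univ]
        exact hg1.continuousOn.comp hcontc.continuousOn (fun t _ => hmem t)
      have h3 : Continuous (fun t : ℝ => (s:ℂ) * (Complex.I * Complex.exp (t * Complex.I))) := by
        fun_prop
      have h4 : Continuous (fun t : ℝ => (t:ℂ) - σ) := by fun_prop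
      exact (h4.mul (hcg.mul h3)).aestronglyMeasurable
    · filter_upwards [hIoo] with s hs
      filter_upwards with t ht
      rw [uIoc_of_le h2pi] at ht
      have ht' : t ∈ Icc (0:ℝ) (2 * Real.pi) := ⟨ht.1.le, ht.2⟩
      rw [hg]
      have hn : ‖(s:ℂ) * Complex.exp (t * Complex.I)‖ = s := by
        rw [norm_mul, Complex.norm_exp_ofReal_mul_I, mul_one, Complex.norm_real,
          Real.norm_of_nonneg hs.1.le]
      have hb1 := norm_exp_sub_ge σ t hs.1.le hs.2.le
      rw [← hζ] at hb1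
      have hb2 := hM t ht'
      have hb3 : ‖deriv F ((s:ℂ) * Complex.exp (t * Complex.I))‖ ≤ C := by
        apply hC
        rw [mem_closedBall_zero_iff, hn]; exact hs.2.le
      have hpos : 0 < ‖ζ - (s:ℂ) * Complex.exp (t * Complex.I)‖ := by
        have := norm_sub_norm_le ζ ((s:ℂ) * Complex.exp (t * Complex.I))
        rw [hn, hζn] at this
        linarith [hs.2]
      have hb4 : ‖ζ + (s:ℂ) * Complex.exp (t * Complex.I)‖ ≤ 2 := by
        refine (norm_add_le _ _).trans ?_
        rw [hζn, hn]; linarith [hs.2]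
      have hb5 : ‖(t:ℂ) - σ‖ = |t - σ| := by
        have : (t:ℂ) - σ = ((t - σ : ℝ) : ℂ) := by push_cast; ring
        rw [this, Complex.norm_real, Real.norm_eq_abs]
      rw [norm_mul, norm_mul, norm_mul, norm_mul, norm_mul, norm_div, hb5, Complex.norm_real,
        Complex.norm_I, Complex.norm_exp_ofReal_mul_I, Real.norm_of_nonneg hs.1.le]
      have hb6 : |t - σ| ≤ M * ‖ζ - (s:ℂ) * Complex.exp (t * Complex.I)‖ :=
        hb2.trans (mul_le_mul_of_nonneg_left hb1 hM0)
      have hb7 : |t - σ| * (‖ζ + (s:ℂ) * Complex.exp (t * Complex.I)‖ /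
          ‖ζ - (s:ℂ) * Complex.exp (t * Complex.I)‖) ≤ 2 * M := by
        rw [mul_div_assoc', div_le_iff₀ hpos]
        calc |t - σ| * ‖ζ + (s:ℂ) * Complex.exp (t * Complex.I)‖
            ≤ (M * ‖ζ - (s:ℂ) * Complex.exp (t * Complex.I)‖) * 2 := by gcongr
          _ = _ := by ring
      calc |t - σ| * (‖ζ + (s:ℂ) * Complex.exp (t * Complex.I)‖ /
            ‖ζ - (s:ℂ) * Complex.exp (t * Complex.I)‖ *
            ‖deriv F ((s:ℂ) * Complex.exp (t * Complex.I))‖ * (s * (1 * 1)))
          = (|t - σ| * (‖ζ + (s:ℂ) * Complex.exp (t * Complex.I)‖ /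
            ‖ζ - (s:ℂ) * Complex.exp (t * Complex.I)‖)) *
            ‖deriv F ((s:ℂ) * Complex.exp (t * Complex.I))‖ * s := by ring
        _ ≤ (2 * M) * C * 1 := by
            gcongr
            · exact hs.1.le
            · exact hs.2.le
        _ = 2 * M * C := by ring
    · exact intervalIntegrable_const
    · have hne : ∀ᵐ t : ℝ, t ≠ σ := by
        rw [ae_iff]; simp
      filter_upwards [hne] with t htσ ht
      rw [uIoc_of_le h2pi] at ht
      have ht' : t ∈ Icc (0:ℝ) (2 * Real.pi) := ⟨ht.1.le, ht.2⟩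
      have hx : (t - σ) / 2 ≠ 0 := by
        intro h; apply htσ; linarith
      have hsx := hsin t ht' hx
      have hmem : Complex.exp (t * Complex.I) ∈ ball (0:ℂ) R ∩ {ζ}ᶜ := by
        refine ⟨?_, ?_⟩
        · rw [mem_ball_zero_iff, Complex.norm_exp_ofReal_mul_I]; exact hR
        · intro h
          rw [mem_singleton_iff] at h
          have h2 := norm_exp_sub_exp σ t
          rw [← hζ, h, sub_self, norm_zero] at h2
          have h4 : |Real.sin ((t - σ) / 2)| = 0 := by linarith
          exact hsx (abs_eq_zero.mp h4)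
      have hval : 2 * Complex.I * ((Jf ((t - σ) / 2) : ℝ) : ℂ) *
        (deriv F (Complex.exp (t * Complex.I)) * (Complex.I * Complex.exp (t * Complex.I))) =
          ((t:ℂ) - σ) * (g (((1:ℝ):ℂ) * Complex.exp (t * Complex.I)) *
            (((1:ℝ):ℂ) * (Complex.I * Complex.exp (t * Complex.I)))) := by
        rw [← kernel_circle hx hsx, hg, Complex.ofReal_one, one_mul, one_mul, hζ]
        ring
      rw [hval]
      have hgc : ContinuousAt g (((1:ℝ):ℂ) * Complex.exp (t * Complex.I)) := by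
        rw [Complex.ofReal_one, one_mul]
        exact (hgd.differentiableAt (hopen.mem_nhds hmem)).continuousAt
      have hc1 : ContinuousAt (fun s : ℝ => (s:ℂ) * Complex.exp (t * Complex.I)) 1 := by fun_prop
      have hc2 : ContinuousAt (fun s : ℝ => g ((s:ℂ) * Complex.exp (t * Complex.I))) 1 :=
        ContinuousAt.comp (f := fun s : ℝ => (s:ℂ) * Complex.exp (t * Complex.I)) (g := g)
          (x := (1:ℝ)) hgc hc1
      have hc3 : ContinuousAt (fun s : ℝ => (s:ℂ) * (Complex.I * Complex.exp (t * Complex.I))) 1 := by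
        fun_prop
      have hc4 : ContinuousAt (fun s : ℝ => ((t:ℂ) - σ) * (g ((s:ℂ) * Complex.exp (t * Complex.I)) *
          ((s:ℂ) * (Complex.I * Complex.exp (t * Complex.I))))) 1 :=
        (hc2.mul hc3).const_mul _
      exact hc4.tendsto.mono_left nhdsWithin_le_nhds
  have heq : ∀ᶠ s : ℝ in 𝓝[<] 1, ∫ t in (0:ℝ)..(2 * Real.pi), ((t:ℂ) - σ) *
      (g ((s:ℂ) * Complex.exp (t * Complex.I)) *
        ((s:ℂ) * (Complex.I * Complex.exp (t * Complex.I)))) =
      2 * Real.pi * ∫ u in (0:ℝ)..s, g u := by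
    filter_upwards [Ioo_mem_nhdsLT (zero_lt_one : (0:ℝ) < 1)] with s hs
    exact rep_radius hg1 hs.1 hs.2 σ
  have hmain := tendsto_nhds_unique (hlim2.congr' heq) hlim1
  -- real parts
  obtain ⟨y, hy⟩ : ∃ y : ℝ → ℝ, ∀ t, y t = (F (Complex.exp (t * Complex.I))).im + κ :=
    ⟨_, fun _ => rfl⟩
  obtain ⟨y', hy'⟩ : ∃ y' : ℝ → ℝ, ∀ t, y' t =
      (deriv F (Complex.exp (t * Complex.I)) * (Complex.I * Complex.exp (t * Complex.I))).im :=
    ⟨_, fun _ => rfl⟩
  have hmemR : ∀ t : ℝ, Complex.exp (t * Complex.I) ∈ ball (0:ℂ) R := by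
    intro t
    rw [mem_ball_zero_iff, Complex.norm_exp_ofReal_mul_I]; exact hR
  have hyd : ∀ t, HasDerivAt y (y' t) t := by
    intro t
    have h1 := hasDerivAt_comp_real (c := fun t : ℝ => Complex.exp (t * Complex.I))
      ((hF.differentiableAt (isOpen_ball.mem_nhds (hmemR t))).hasDerivAt) (hasDerivAt_cexp_mul_I t)
    have h2 := (Complex.imCLM.hasFDerivAt.comp_hasDerivAt t h1).add_const κ
    have h3 : y = (Complex.imCLM ∘ fun s : ℝ => F (Complex.exp (s * Complex.I))) + fun _ => κ := by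
      ext s; rw [hy]; simp
    rw [hy']
    rw [h3]
    exact h2
  have hce : Continuous (fun t : ℝ => Complex.exp (t * Complex.I)) := by fun_prop
  have hcF' : Continuous (fun t : ℝ => deriv F (Complex.exp (t * Complex.I)) *
      (Complex.I * Complex.exp (t * Complex.I))) := by
    have h1 : Continuous (fun t : ℝ => deriv F (Complex.exp (t * Complex.I))) := by
      rw [← continuousOn_univ]
      exact hd1.continuousOn.comp hce.continuousOn (fun t _ => hmemR t)
    exact h1.mul (continuous_const.mul hce)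
  have hcy' : Continuous y' := by
    refine (Complex.continuous_im.comp hcF').congr ?_
    intro t; rw [hy']; rfl
  have hcy : Continuous y := continuous_iff_continuousAt.mpr fun t => (hyd t).continuousAt
  have hmapx : ∀ t ∈ Icc (0:ℝ) (2 * Real.pi), (t - σ) / 2 ∈ Ioo (-Real.pi) Real.pi := by
    intro t ht
    constructor
    · linarith [ht.1, hσ.2]
    · linarith [ht.2, hσ.1]
  have hcJ : ContinuousOn (fun t : ℝ => Jf ((t - σ) / 2)) (Icc 0 (2 * Real.pi)) := by
    have : ContinuousOn (fun t : ℝ => (t - σ) / 2) (Icc 0 (2 * Real.pi)) := by fun_prop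
    exact hJ.comp this hmapx
  have hcN : ContinuousOn (fun t : ℝ => Nf ((t - σ) / 2)) (Icc 0 (2 * Real.pi)) := by
    have : ContinuousOn (fun t : ℝ => (t - σ) / 2) (Icc 0 (2 * Real.pi)) := by fun_prop
    exact hN.comp this hmapx
  have hy0 : y 0 = 0 := by rw [hy]; simp [hκ]
  have hy2 : y (2 * Real.pi) = 0 := by
    rw [hy]
    have e0 : Complex.exp (((2 * Real.pi : ℝ):ℂ) * Complex.I) = 1 := by
      push_cast; exact Complex.exp_two_pi_mul_I
    rw [e0, hκ]; ring
  have hparts : ∫ t in (0:ℝ)..(2 * Real.pi), (-(Nf ((t - σ) / 2)) * y t + Jf ((t - σ) / 2) * y' t) =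
      0 := by
    have key := integral_eq_of_hasDerivAt_off_countable_of_le
      (fun t : ℝ => Jf ((t - σ) / 2) * y t)
      (fun t : ℝ => -(Nf ((t - σ) / 2)) * y t + Jf ((t - σ) / 2) * y' t) h2pi
      (countable_singleton σ) (hcJ.mul hcy.continuousOn) (by
        rintro t ⟨ht, htσ⟩
        have hx : (t - σ) / 2 ≠ 0 := by
          intro h; apply htσ; rw [mem_singleton_iff]; linarith
        have h1 := (hder _ (hmapx t ⟨ht.1.le, ht.2.le⟩) hx).2.1
        have h2 : HasDerivAt (fun t : ℝ => (t - σ) / 2) (1 / 2) t := by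
          simpa using ((hasDerivAt_id t).sub_const σ).div_const 2
        have h3 := h1.comp t h2
        have h4 := h3.mul (hyd t)
        refine h4.congr_deriv ?_
        simp only [Function.comp_apply]
        ring) (by
        apply ContinuousOn.intervalIntegrable
        rw [uIcc_of_le h2pi]
        exact (hcN.neg.mul hcy.continuousOn).add (hcJ.mul hcy'.continuousOn))
    rw [key, hy0, hy2]; ring
  have hiN : IntervalIntegrable (fun t : ℝ => -(Nf ((t - σ) / 2)) * y t) volume 0 (2 * Real.pi) := by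
    apply ContinuousOn.intervalIntegrable
    rw [uIcc_of_le h2pi]
    exact hcN.neg.mul hcy.continuousOn
  have hiJ : IntervalIntegrable (fun t : ℝ => Jf ((t - σ) / 2) * y' t) volume 0 (2 * Real.pi) := by
    apply ContinuousOn.intervalIntegrable
    rw [uIcc_of_le h2pi]
    exact hcJ.mul hcy'.continuousOn
  rw [intervalIntegral.integral_add hiN hiJ] at hparts
  -- the real part of the limit
  have hre : (∫ t in (0:ℝ)..(2 * Real.pi), 2 * Complex.I * ((Jf ((t - σ) / 2) : ℝ) : ℂ) *
        (deriv F (Complex.exp (t * Complex.I)) * (Complex.I * Complex.exp (t * Complex.I)))).re =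
      -2 * ∫ t in (0:ℝ)..(2 * Real.pi), Jf ((t - σ) / 2) * y' t := by
    have hint : IntervalIntegrable (fun t : ℝ => 2 * Complex.I * ((Jf ((t - σ) / 2) : ℝ) : ℂ) *
        (deriv F (Complex.exp (t * Complex.I)) * (Complex.I * Complex.exp (t * Complex.I))))
        volume 0 (2 * Real.pi) := by
      apply ContinuousOn.intervalIntegrable
      rw [uIcc_of_le h2pi]
      exact (continuousOn_const.mul (Complex.continuous_ofReal.comp_continuousOn hcJ)).mul
        hcF'.continuousOn
    rw [← Complex.reCLM_apply, ← Complex.reCLM.intervalIntegral_comp_comm hint,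
      ← intervalIntegral.integral_const_mul]
    apply intervalIntegral.integral_congr
    intro t _
    simp only [Complex.reCLM_apply, hy']
    have h1 : 2 * Complex.I * ((Jf ((t - σ) / 2) : ℝ) : ℂ) *
        (deriv F (Complex.exp (t * Complex.I)) * (Complex.I * Complex.exp (t * Complex.I))) =
        ((2 * Jf ((t - σ) / 2) : ℝ) : ℂ) * (Complex.I *
        (deriv F (Complex.exp (t * Complex.I)) * (Complex.I * Complex.exp (t * Complex.I)))) := by
      push_cast; ring
    rw [h1, Complex.re_ofReal_mul, Complex.I_mul_re]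
    ring
  have hleft : (2 * Real.pi * ∫ u in (0:ℝ)..1, g u : ℂ).re =
      2 * Real.pi * (∫ s in (0:ℝ)..1, (Complex.exp (σ * Complex.I) + s) /
        (Complex.exp (σ * Complex.I) - s) * deriv F s).re := by
    have h1 : (2 * (Real.pi : ℂ)) = ((2 * Real.pi : ℝ) : ℂ) := by push_cast; ring
    rw [h1, Complex.re_ofReal_mul]
    congr 2
    apply intervalIntegral.integral_congr
    intro s _
    simp only [hg, hζ]
  have h6 := congrArg Complex.re hmain
  rw [hre, hleft] at h6
  have h7 : ∫ t in (0:ℝ)..(2 * Real.pi), Nf ((t - σ) / 2) *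
      (-(F (Complex.exp (t * Complex.I))).im - κ) = ∫ t in (0:ℝ)..(2 * Real.pi),
      -(Nf ((t - σ) / 2)) * y t := by
    apply intervalIntegral.integral_congr
    intro t _
    simp only [hy]
    ring
  rw [h7]
  rw [eq_inv_mul_iff_mul_eq₀ hpi.ne']
  linarith

end

end Pool.Agent.Lib.MP_7682a8_an.OM.H10
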